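import Pool.Agent.W798.SP.Stm2
import Pool.Agent.W919.SP.RE

/-!
# SPY: transfer from positive reals to all finite sets of reals (exponent 226)
-/

set_option autoImplicit false
set_option linter.unusedSectionVars false

open Finset
open scoped Classical Pointwise

namespace Pool.Agent.W333.SPY

open Pool.Agent.W798.SP

lemma rhs_mono (A B : Finset ℝ) (h1 : (B + B).card ≤ (A + A).card)
    (h2 : (B * B).card ≤ (A * A).card) :
    ((B + B).card : ℝ) ^ 103 * ((B * B).card : ℝ) ^ 66 ≤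
      ((A + A).card : ℝ) ^ 103 * ((A * A).card : ℝ) ^ 66 := by
  have h1' : ((B + B).card : ℝ) ≤ ((A + A).card : ℝ) := by exact_mod_cast h1
  have h2' : ((B * B).card : ℝ) ≤ ((A * A).card : ℝ) := by exact_mod_cast h2
  gcongr

theorem tRE2 (h : S_PO2) : S_RE2 := by
  intro δ hδ
  have hδ' : 0 < min δ 1 := lt_min hδ one_pos
  obtain ⟨c, hc, hP⟩ := h (min δ 1) hδ'
  have he0 : 0 ≤ 226 - min δ 1 := by
    have := min_le_right δ 1
    linarith
  have he1 : 226 - min δ 1 ≤ 226 := by linarith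
  have he2 : 226 - δ ≤ 226 - min δ 1 := by
    have := min_le_left δ 1
    linarith
  set e : ℝ := 226 - min δ 1 with he
  refine ⟨min c 1 / 3 ^ (226:ℝ), by positivity, ?_⟩
  intro A hA
  have hA1 : 1 ≤ A.card := hA.card_pos
  have hN1 : (1:ℝ) ≤ A.card := by exact_mod_cast hA1
  have hcn : 0 ≤ min c 1 / 3 ^ (226:ℝ) := by positivity
  have hstep : min c 1 / 3 ^ (226:ℝ) * (A.card : ℝ) ^ (226 - δ) ≤
      min c 1 / 3 ^ (226:ℝ) * (A.card : ℝ) ^ e :=
    mul_le_mul_of_nonneg_left (Real.rpow_le_rpow_of_exponent_le hN1 he2) hcn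
  refine hstep.trans ?_
  have h3pos : (0:ℝ) < 3 ^ (226:ℝ) := by positivity
  rcases Nat.lt_or_ge A.card 3 with h3 | h3
  · -- small sets
    have hN3 : (A.card : ℝ) ≤ 3 := by exact_mod_cast h3.le
    have h1 : (A.card : ℝ) ^ e ≤ 3 ^ (226:ℝ) := by
      calc (A.card : ℝ) ^ e ≤ 3 ^ e := Real.rpow_le_rpow (by linarith) hN3 he0
        _ ≤ 3 ^ (226:ℝ) := Real.rpow_le_rpow_of_exponent_le (by norm_num) he1
    have h2 : min c 1 / 3 ^ (226:ℝ) * (A.card : ℝ) ^ e ≤ 1 := by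
      rw [div_mul_eq_mul_div, div_le_one h3pos]
      calc min c 1 * (A.card : ℝ) ^ e ≤ 1 * (A.card : ℝ) ^ e :=
            mul_le_mul_of_nonneg_right (min_le_right _ _) (by positivity)
        _ ≤ 3 ^ (226:ℝ) := by rw [one_mul]; exact h1
    have h4 : (1:ℝ) ≤ ((A + A).card : ℝ) := by
      exact_mod_cast (hA.add hA).card_pos
    have h5 : (1:ℝ) ≤ ((A * A).card : ℝ) := by
      exact_mod_cast (hA.mul hA).card_pos
    have h6 : (1:ℝ) ≤ ((A + A).card : ℝ) ^ 103 * ((A * A).card : ℝ) ^ 66 :=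
      one_le_mul_of_one_le_of_one_le (one_le_pow₀ h4) (one_le_pow₀ h5)
    linarith
  · obtain ⟨B, hB0, hBp, hB3, hBs, hBm⟩ := Pool.Agent.W919.SP.posPart A h3
    have h7 := hP B hB0 hBp
    have h8 := rhs_mono A B hBs hBm
    refine le_trans ?_ (h7.trans h8)
    have hB3' : (A.card : ℝ) ≤ 3 * B.card := by exact_mod_cast hB3
    have h9 : (A.card : ℝ) ^ e ≤ 3 ^ (226:ℝ) * (B.card : ℝ) ^ e := by
      calc (A.card : ℝ) ^ e ≤ (3 * (B.card : ℝ)) ^ e :=
            Real.rpow_le_rpow (by linarith) hB3' he0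
        _ = 3 ^ e * (B.card : ℝ) ^ e := Real.mul_rpow (by norm_num) (by positivity)
        _ ≤ 3 ^ (226:ℝ) * (B.card : ℝ) ^ e :=
            mul_le_mul_of_nonneg_right (Real.rpow_le_rpow_of_exponent_le (by norm_num) he1)
              (by positivity)
    calc min c 1 / 3 ^ (226:ℝ) * (A.card : ℝ) ^ e
        ≤ min c 1 / 3 ^ (226:ℝ) * (3 ^ (226:ℝ) * (B.card : ℝ) ^ e) :=
          mul_le_mul_of_nonneg_left h9 hcn
      _ = min c 1 * (B.card : ℝ) ^ e := by
          field_simp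
      _ ≤ c * (B.card : ℝ) ^ e :=
          mul_le_mul_of_nonneg_right (min_le_left _ _) (by positivity)

end Pool.Agent.W333.SPY
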